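import Pool.Agent.U204.SP.Jensen

/-!
# The energy of the prediction error
-/

set_option autoImplicit false

open Finset MeasureTheory Filter Topology

namespace Pool.Agent.U204.SP

open Pool.Agent.U204.RF

/-- the representation function as a real sequence -/
noncomputable def rr (A : Set ℕ) (h : ℕ) (n : ℕ) : ℝ := (r A h n : ℝ)

theorem rr_nonneg (A : Set ℕ) (h n : ℕ) : 0 ≤ rr A h n := Nat.cast_nonneg _

/-- the hypotheses on a finite predictor -/
structure Pred (b : ℕ → ℝ) (S : ℝ) : Prop where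
  fin : ∃ M, ∀ n, M ≤ n → b n = 0
  zero : 1 ≤ |b 0|
  sum : ∀ m, ∑ n ∈ range m, |b n| ≤ S
  one : 1 ≤ S

theorem Pred.good {b : ℕ → ℝ} {S : ℝ} (hb : Pred b S) : Good b :=
  Good.of_bdd (a := S) fun n => by
    have h1 := hb.sum (n + 1)
    rw [sum_range_succ] at h1
    have h2 : 0 ≤ ∑ i ∈ range n, |b i| := sum_nonneg fun _ _ => abs_nonneg _
    linarith

theorem Pred.good_abs {b : ℕ → ℝ} {S : ℝ} (hb : Pred b S) : Good fun n => |b n| :=
  hb.good.of_le fun n => by rw [abs_abs]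

theorem Pred.sv_abs {b : ℕ → ℝ} {S : ℝ} (hb : Pred b S) {y : ℝ} (h0 : 0 ≤ y) (h1 : y ≤ 1) :
    sv (fun n => |b n|) y ≤ S := by
  obtain ⟨M, hM⟩ := hb.fin
  unfold sv
  rw [tsum_eq_sum (s := range M)]
  · refine le_trans (sum_le_sum fun n _ => ?_) (hb.sum M)
    calc |b n| * y ^ n ≤ |b n| * 1 :=
          mul_le_mul_of_nonneg_left (pow_le_one₀ h0 h1) (abs_nonneg _)
      _ = |b n| := mul_one _
  · intro n hn
    show |b n| * y ^ n = 0
    rw [hM n (by simpa using hn)]; simp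

theorem abs_conv_le (b c : ℕ → ℝ) (hc : ∀ n, 0 ≤ c n) (n : ℕ) :
    |conv b c n| ≤ conv (fun m => |b m|) c n := by
  unfold conv
  refine (abs_sum_le_sum_abs _ _).trans (le_of_eq (sum_congr rfl fun p _ => ?_))
  rw [abs_mul, abs_of_nonneg (hc _)]

theorem conv_abs_le {b c : ℕ → ℝ} {S K : ℝ} (hb : Pred b S) (hK : 0 ≤ K) (hc : ∀ n, c n ≤ K)
    (n : ℕ) : conv (fun m => |b m|) c n ≤ S * K := by
  unfold conv
  calc ∑ p ∈ antidiagonal n, |b p.1| * c p.2 ≤ ∑ p ∈ antidiagonal n, |b p.1| * K :=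
        sum_le_sum fun p _ => mul_le_mul_of_nonneg_left (hc _) (abs_nonneg _)
    _ = (∑ p ∈ antidiagonal n, |b p.1|) * K := by rw [sum_mul]
    _ = (∑ i ∈ range (n + 1), |b i|) * K := by
        rw [Nat.sum_antidiagonal_eq_sum_range_succ (fun i _ => |b i|) n]
    _ ≤ S * K := mul_le_mul_of_nonneg_right (hb.sum _) hK

/-- the threshold for small values -/
noncomputable def eta (K S : ℝ) : ℝ := Real.exp (-(16 * K * Real.log S + 1))

theorem eta_pos (K S : ℝ) : 0 < eta K S := Real.exp_pos _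

theorem eta_lt_one {K S : ℝ} (hK : 0 ≤ K) (hS : 1 ≤ S) : eta K S < 1 := by
  unfold eta
  rw [Real.exp_lt_one_iff]
  have := Real.log_nonneg hS
  have : 0 ≤ 16 * K * Real.log S := by positivity
  linarith

theorem ratio_le {K S : ℝ} (hK : 1 ≤ K) (hS : 1 ≤ S) :
    Real.log S / Real.log (1 / eta K S) ≤ 1 / (4 * (4 * K)) := by
  have h1 := Real.log_nonneg hS
  have h2 : Real.log (1 / eta K S) = 16 * K * Real.log S + 1 := by
    unfold eta
    rw [one_div, ← Real.exp_neg, Real.log_exp, neg_neg]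
  rw [h2, div_le_div_iff₀ (by positivity) (by positivity)]
  nlinarith

/-- the energy of the prediction error is large -/
theorem energy (A : Set ℕ) (j : ℕ) {K S w : ℝ} (hK : 1 ≤ K) (hr : ∀ n, rr A (j + 2) n ≤ K)
    {b : ℕ → ℝ} (hb : Pred b S) (h0 : 0 ≤ w) (h1 : w < 1) (ha : 0 < sv (chi A) (w ^ 2)) :
    eta K S ^ 2 * (sv (chi A) (w ^ 2) / 4) ^ (j + 2) ≤
      sv (fun n => conv b (rr A (j + 2)) n ^ 2) (w ^ 2) := by
  have hy0 : 0 ≤ w ^ 2 := sq_nonneg _
  have hy1 : w ^ 2 < 1 := by nlinarith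
  have gr : Good (rr A (j + 2)) := good_r A (j + 2)
  have gb := hb.good
  set V : Set ℝ := {θ : ℝ | ‖ev b (cz w θ)‖ < eta K S} with hV
  have cb : Continuous fun θ => ‖ev b (cz w θ)‖ := (continuous_ev_cz gb h0 h1).norm
  have hVm : MeasurableSet V := (isOpen_lt cb continuous_const).measurableSet
  have hVmu : mu.real V ≤ 1 / (4 * (4 * K)) := by
    obtain ⟨M, hM⟩ := hb.fin
    exact (small_rare b M hb.zero hM hb.one (hb.sum M) h0 h1.le (eta_pos K S)
      (eta_lt_one (by linarith) hb.one)).trans (ratio_le hK hb.one)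
  have hMM : MM A (j + 2) (w ^ 2) ≤ 4 * K / 4 * sv (chi A) (w ^ 2) ^ (j + 2) := by
    rw [← sv_r A (j + 2) hy0 hy1]
    unfold MM
    have e : 4 * K / 4 * sv (fun n => (r A (j + 2) n : ℝ)) (w ^ 2) =
        sv (fun n => K * (r A (j + 2) n : ℝ)) (w ^ 2) := by rw [sv_smul]; ring
    rw [e]
    refine sv_mono (good_r A (j + 2)).sq ((good_r A (j + 2)).smul K) (fun n => ?_) hy0 hy1
    have h2 : (r A (j + 2) n : ℝ) ≤ K := hr n
    have h3 : (0 : ℝ) ≤ (r A (j + 2) n : ℝ) := Nat.cast_nonneg _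
    nlinarith
  have key := int_off A j h0 h1 ha (L := 4 * K) (by linarith) hMM hVm hVmu
  have gT : Good (conv b (rr A (j + 2))) := gb.conv gr
  have cT : Continuous fun θ => ‖ev (conv b (rr A (j + 2))) (cz w θ)‖ ^ 2 :=
    (continuous_ev_cz gT h0 h1).norm.pow 2
  have cX : Continuous fun θ => XX A w θ ^ (j + 2) := (continuous_XX A h0 h1).pow _
  have hz : ∀ θ, ‖cz w θ‖ < 1 := fun θ => by rw [norm_cz h0]; exact h1
  calc eta K S ^ 2 * (sv (chi A) (w ^ 2) / 4) ^ (j + 2)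
      ≤ eta K S ^ 2 * ∫ θ in Vᶜ, XX A w θ ^ (j + 2) ∂mu :=
        mul_le_mul_of_nonneg_left key (sq_nonneg _)
    _ = ∫ θ in Vᶜ, eta K S ^ 2 * XX A w θ ^ (j + 2) ∂mu := by rw [integral_const_mul]
    _ ≤ ∫ θ in Vᶜ, ‖ev (conv b (rr A (j + 2))) (cz w θ)‖ ^ 2 ∂mu := by
        refine setIntegral_mono_on (integrable_mu (continuous_const.mul cX)).integrableOn
          (integrable_mu cT).integrableOn hVm.compl fun θ hθ => ?_
        have hθ' : eta K S ≤ ‖ev b (cz w θ)‖ := by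
          by_contra hc
          exact hθ (not_le.1 hc)
        rw [XX_pow A (j + 2) h0 h1, ev_conv gb gr (hz θ), norm_mul, mul_pow]
        exact mul_le_mul_of_nonneg_right (pow_le_pow_left₀ (eta_pos K S).le hθ' 2) (sq_nonneg _)
    _ ≤ ∫ θ, ‖ev (conv b (rr A (j + 2))) (cz w θ)‖ ^ 2 ∂mu :=
        setIntegral_le_integral (integrable_mu cT) (Filter.Eventually.of_forall fun θ => by
          show (0 : ℝ) ≤ _
          positivity)
    _ = _ := integral_norm_sq gT h0 h1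

/-- the counting inequality at one scale -/
theorem count_scale (A : Set ℕ) (j : ℕ) {K S w δ : ℝ} (hK : 1 ≤ K) (hr : ∀ n, rr A (j + 2) n ≤ K)
    {b : ℕ → ℝ} (hb : Pred b S) (h0 : 0 ≤ w) (h1 : w < 1) (ha : 0 < sv (chi A) (w ^ 2))
    (hδ : 0 ≤ δ) (N : ℕ) :
    eta K S ^ 2 * (sv (chi A) (w ^ 2) / 4) ^ (j + 2) ≤
      (S * K) ^ 2 * ((range N).filter fun n => δ ≤ |conv b (rr A (j + 2)) n|).card +
      δ * (S * sv (chi A) (w ^ 2) ^ (j + 2)) +
      w ^ N * ((S * K) * (S * sv (chi A) w ^ (j + 2))) := by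
  have hy0 : 0 ≤ w ^ 2 := sq_nonneg _
  have hy1 : w ^ 2 < 1 := by nlinarith
  have hS0 : 0 ≤ S := by linarith [hb.one]
  have gr : Good (rr A (j + 2)) := good_r A (j + 2)
  have gb := hb.good
  have gB : Good (conv (fun m => |b m|) (rr A (j + 2))) := hb.good_abs.conv gr
  set T : ℕ → ℝ := conv b (rr A (j + 2)) with hT
  set B : ℕ → ℝ := conv (fun m => |b m|) (rr A (j + 2)) with hB
  have gT : Good T := gb.conv gr
  have hTB : ∀ n, |T n| ≤ B n := fun n => abs_conv_le b _ (rr_nonneg A (j + 2)) n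
  have hBK : ∀ n, B n ≤ S * K := fun n => conv_abs_le hb (by linarith) hr n
  have hB0 : ∀ n, 0 ≤ B n := fun n => (abs_nonneg _).trans (hTB n)
  have hBsv : ∀ y : ℝ, 0 ≤ y → y < 1 → sv B y ≤ S * sv (chi A) y ^ (j + 2) := by
    intro y hy hy'
    rw [hB, sv_conv hb.good_abs gr hy hy']
    have e : sv (rr A (j + 2)) y = sv (chi A) y ^ (j + 2) := sv_r A (j + 2) hy hy'
    rw [e]
    exact mul_le_mul_of_nonneg_right (hb.sv_abs hy hy'.le)
      (pow_nonneg (sv_nonneg (chi_nonneg A) hy) _)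
  have hsqB : ∀ n, T n ^ 2 ≤ (S * K) * B n := by
    intro n
    rw [← sq_abs, sq]
    exact mul_le_mul ((hTB n).trans (hBK n)) (hTB n) (abs_nonneg _) (by positivity)
  refine (energy A j hK hr hb h0 h1 ha).trans ?_
  have sT2y : Summable fun n => T n ^ 2 * (w ^ 2) ^ n := gT.sq.summable hy0 hy1
  have sT2w : Summable fun n => T n ^ 2 * w ^ n := gT.sq.summable h0 h1
  have sB : Summable fun n => B n * (w ^ 2) ^ n := gB.summable hy0 hy1
  -- the pointwise inequality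
  set P : Finset ℕ := (range N).filter fun n => δ ≤ |T n| with hP
  have hpt : ∀ n, T n ^ 2 * (w ^ 2) ^ n ≤
      (if n ∈ P then (S * K) ^ 2 else 0) + δ * (B n * (w ^ 2) ^ n) + w ^ N * (T n ^ 2 * w ^ n) := by
    intro n
    have hw2 : 0 ≤ (w ^ 2) ^ n := pow_nonneg hy0 n
    have hw2' : (w ^ 2) ^ n ≤ 1 := pow_le_one₀ hy0 hy1.le
    have t1 : 0 ≤ δ * (B n * (w ^ 2) ^ n) := mul_nonneg hδ (mul_nonneg (hB0 n) hw2)
    have t2 : 0 ≤ w ^ N * (T n ^ 2 * w ^ n) :=
      mul_nonneg (pow_nonneg h0 N) (mul_nonneg (sq_nonneg _) (pow_nonneg h0 n))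
    have t3 : (0 : ℝ) ≤ if n ∈ P then (S * K) ^ 2 else 0 := by split_ifs <;> positivity
    by_cases hn : n < N
    · by_cases hd : δ ≤ |T n|
      · have hmem : n ∈ P := by rw [hP, mem_filter, mem_range]; exact ⟨hn, hd⟩
        rw [if_pos hmem]
        have h5 : T n ^ 2 ≤ (S * K) ^ 2 := by
          rw [← sq_abs]
          exact pow_le_pow_left₀ (abs_nonneg _) ((hTB n).trans (hBK n)) 2
        have h6 : T n ^ 2 * (w ^ 2) ^ n ≤ (S * K) ^ 2 * 1 :=
          mul_le_mul h5 hw2' hw2 (sq_nonneg _)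
        linarith
      · have hd' : |T n| ≤ δ := (not_le.1 hd).le
        have h5 : T n ^ 2 ≤ δ * B n := by
          rw [← sq_abs, sq]
          exact mul_le_mul hd' (hTB n) (abs_nonneg _) hδ
        have h6 : T n ^ 2 * (w ^ 2) ^ n ≤ δ * B n * (w ^ 2) ^ n := mul_le_mul_of_nonneg_right h5 hw2
        linarith
    · have h5 : (w ^ 2) ^ n ≤ w ^ N * w ^ n := by
        rw [← pow_mul, two_mul, pow_add]
        exact mul_le_mul_of_nonneg_right (pow_le_pow_of_le_one h0 h1.le (by omega))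
          (pow_nonneg h0 n)
      have h6 : T n ^ 2 * (w ^ 2) ^ n ≤ T n ^ 2 * (w ^ N * w ^ n) :=
        mul_le_mul_of_nonneg_left h5 (sq_nonneg _)
      have h7 : T n ^ 2 * (w ^ N * w ^ n) = w ^ N * (T n ^ 2 * w ^ n) := by ring
      linarith
  have sP : Summable fun n => if n ∈ P then (S * K) ^ 2 else (0 : ℝ) :=
    summable_of_ne_finset_zero (s := P) fun n hn => if_neg hn
  have e1 : ∑' n, (if n ∈ P then (S * K) ^ 2 else (0 : ℝ)) = (S * K) ^ 2 * P.card := by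
    rw [tsum_eq_sum (s := P) fun n hn => if_neg hn, Finset.sum_congr rfl fun n hn => if_pos hn,
      Finset.sum_const, nsmul_eq_mul, mul_comm]
  have h8 : sv (fun n => T n ^ 2) (w ^ 2) ≤
      (S * K) ^ 2 * P.card + δ * sv B (w ^ 2) + w ^ N * sv (fun n => T n ^ 2) w := by
    have := sT2y.tsum_le_tsum hpt ((sP.add (sB.mul_left δ)).add (sT2w.mul_left (w ^ N)))
    rw [(sP.add (sB.mul_left δ)).tsum_add (sT2w.mul_left (w ^ N)), sP.tsum_add (sB.mul_left δ),
      tsum_mul_left, tsum_mul_left, e1] at this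
    exact this
  have h9 : sv (fun n => T n ^ 2) w ≤ (S * K) * (S * sv (chi A) w ^ (j + 2)) := by
    have h10 : sv (fun n => T n ^ 2) w ≤ sv (fun n => (S * K) * B n) w :=
      sv_mono gT.sq (gB.smul _) hsqB h0 h1
    rw [sv_smul] at h10
    exact h10.trans (mul_le_mul_of_nonneg_left (hBsv w h0 h1) (by positivity))
  have h11 := mul_le_mul_of_nonneg_left (hBsv _ hy0 hy1) hδ
  have h12 := mul_le_mul_of_nonneg_left h9 (pow_nonneg h0 N)
  linarith

end Pool.Agent.U204.SP
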