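import Pool.Agent.U204.RFRecB
import Mathlib.Analysis.Polynomial.MahlerMeasure

/-!
# Small values of power series with bounded coefficients are rare (Jensen's inequality)
-/

set_option autoImplicit false

open Finset MeasureTheory Filter Topology Polynomial

namespace Pool.Agent.U204.SP

open Pool.Agent.U204.RF

theorem circleMap_eq (θ : ℝ) : circleMap 0 1 θ = ce θ := by
  unfold circleMap ce
  rw [mul_comm Complex.I]; simp

theorem ae_ne_zero {p : ℂ[X]} (hp : p ≠ 0) :
    ∀ᵐ θ ∂(volume.restrict (Set.Ioc 0 (2 * Real.pi))), p.eval (ce θ) ≠ 0 := by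
  rw [ae_iff, Measure.restrict_apply' measurableSet_Ioc]
  refine Set.Finite.measure_zero ?_ volume
  simp only [ne_eq, not_not]
  refine Set.Finite.of_finite_image (f := ce) ?_ ?_
  · refine (p.roots.toFinset.finite_toSet).subset ?_
    rintro w ⟨θ, ⟨hθ, -⟩, rfl⟩
    simp only [Set.mem_ofPred_eq] at hθ
    simp [hp, hθ]
  · intro x hx y hy hxy
    have h1 : Set.InjOn (circleMap 0 1) (Set.Ioc 0 (2 * Real.pi)) := by
      have := injOn_circleMap_of_abs_sub_le (c := 0) (R := 1) (a := 0) (b := 2 * Real.pi)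
        one_ne_zero (by simp [abs_of_pos Real.pi_pos])
      rwa [Set.uIoc_of_le (by have := Real.pi_pos; positivity)] at this
    refine h1 hx.2 hy.2 ?_
    rw [circleMap_eq, circleMap_eq]; exact hxy

theorem jensen (p : ℂ[X]) (h0 : 1 ≤ ‖p.coeff 0‖) {S η : ℝ} (hS : 1 ≤ S)
    (hS' : ∀ z : ℂ, ‖z‖ = 1 → ‖p.eval z‖ ≤ S) (hη : 0 < η) (hη1 : η < 1) :
    mu.real {θ : ℝ | ‖p.eval (ce θ)‖ < η} ≤ Real.log S / Real.log (1 / η) := by
  have hp : p ≠ 0 := by
    rintro rfl
    simp at h0
    linarith
  set V : Set ℝ := {θ : ℝ | ‖p.eval (ce θ)‖ < η} with hV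
  have hVm : MeasurableSet V :=
    (isOpen_lt (p.continuous.comp continuous_ce).norm continuous_const).measurableSet
  set g : ℝ → ℝ := V.indicator (fun _ => 1) with hg
  have hmm : 1 ≤ p.mahlerMeasure := by
    have := norm_coeff_le_choose_mul_mahlerMeasure 0 p
    rw [Nat.choose_zero_right, Nat.cast_one, one_mul] at this
    linarith
  have hlog : 0 ≤ ∫ θ in (0 : ℝ)..(2 * Real.pi), Real.log ‖p.eval (ce θ)‖ := by
    rw [mahlerMeasure_def_of_ne_zero hp, Real.one_le_exp_iff] at hmm
    simp only [circleMap_eq] at hmm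
    have hpi : 0 < (2 * Real.pi)⁻¹ := by have := Real.pi_pos; positivity
    exact nonneg_of_mul_nonneg_right hmm hpi
  have hle : ∫ θ in (0 : ℝ)..(2 * Real.pi), Real.log ‖p.eval (ce θ)‖ ≤
      ∫ θ in (0 : ℝ)..(2 * Real.pi), (Real.log S - (Real.log S - Real.log η) * g θ) := by
    rw [intervalIntegral.integral_of_le (by have := Real.pi_pos; positivity),
      intervalIntegral.integral_of_le (by have := Real.pi_pos; positivity)]
    refine integral_mono_ae ?_ ?_ ?_
    · have := p.intervalIntegrable_mahlerMeasure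
      simp only [circleMap_eq] at this
      rw [intervalIntegrable_iff_integrableOn_Ioc_of_le (by have := Real.pi_pos; positivity)] at this
      exact this
    · refine (integrable_const _).sub (Integrable.const_mul ?_ _)
      exact (integrable_const (1 : ℝ)).indicator hVm
    · filter_upwards [ae_ne_zero hp] with θ hθ
      have hpos : 0 < ‖p.eval (ce θ)‖ := norm_pos_iff.2 hθ
      by_cases hmem : θ ∈ V
      · rw [hg, Set.indicator_of_mem hmem, mul_one]
        have : Real.log ‖p.eval (ce θ)‖ ≤ Real.log η := Real.log_le_log hpos (le_of_lt hmem)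
        linarith
      · rw [hg, Set.indicator_of_notMem hmem, mul_zero, sub_zero]
        exact Real.log_le_log hpos (hS' _ (norm_ce θ))
  have hgi : ∀ a b : ℝ, IntervalIntegrable g volume a b := by
    intro a b
    refine (intervalIntegrable_const (c := (1 : ℝ))).mono_fun ?_ ?_
    · exact (measurable_const.indicator hVm).aestronglyMeasurable
    · refine Eventually.of_forall fun θ => ?_
      simp only [hg, Set.indicator]
      split_ifs <;> simp
  have hper : Function.Periodic g (2 * Real.pi) := by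
    intro θ
    have hp : ce (θ + 2 * Real.pi) = ce θ := ce_periodic θ
    simp only [hg, Set.indicator, hV, Set.mem_ofPred_eq, hp]
  have hmu : mu.real V = 1 / (2 * Real.pi) * ∫ θ in (0 : ℝ)..(2 * Real.pi), g θ := by
    have e1 : mu.real V = ∫ θ, g θ ∂mu := by
      rw [hg, integral_indicator_const _ hVm, smul_eq_mul, mul_one]
    rw [e1, integral_mu, smul_eq_mul]
    have h2 := hper.intervalIntegral_add_eq (-Real.pi) 0
    have e4 : -Real.pi + 2 * Real.pi = Real.pi := by ring
    rw [e4, zero_add] at h2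
    rw [h2]
  rw [intervalIntegral.integral_sub (by simp) ((hgi _ _).const_mul _),
    intervalIntegral.integral_const, intervalIntegral.integral_const_mul, smul_eq_mul, sub_zero] at hle
  have hpi := Real.pi_pos
  have hint : ∫ θ in (0 : ℝ)..(2 * Real.pi), g θ = 2 * Real.pi * mu.real V := by
    rw [hmu]; field_simp
  rw [hint] at hle
  have hlS : 0 ≤ Real.log S := Real.log_nonneg hS
  have hlη : 0 < Real.log (1 / η) := Real.log_pos (by rw [lt_div_iff₀ hη]; linarith)
  have hlη' : Real.log (1 / η) = - Real.log η := by rw [one_div, Real.log_inv]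
  rw [le_div_iff₀ hlη, hlη']
  have h3 : 0 ≤ 2 * Real.pi * (Real.log S - (Real.log S - Real.log η) * mu.real V) := by
    calc (0 : ℝ) ≤ _ := hlog
      _ ≤ _ := hle
      _ = _ := by ring
  have h4 : 0 ≤ Real.log S - (Real.log S - Real.log η) * mu.real V :=
    nonneg_of_mul_nonneg_right h3 (by positivity)
  have h5 : 0 ≤ mu.real V := measureReal_nonneg
  nlinarith [mul_nonneg hlS h5]

/-- Small values of a finite power series on a circle are rare. -/
theorem small_rare (b : ℕ → ℝ) (M : ℕ) (hb0 : 1 ≤ |b 0|) (hbM : ∀ n, M ≤ n → b n = 0)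
    {S η ρ : ℝ} (hS : 1 ≤ S) (hbS : ∑ n ∈ range M, |b n| ≤ S) (hρ0 : 0 ≤ ρ) (hρ1 : ρ ≤ 1)
    (hη : 0 < η) (hη1 : η < 1) :
    mu.real {θ : ℝ | ‖ev b (cz ρ θ)‖ < η} ≤ Real.log S / Real.log (1 / η) := by
  set p : ℂ[X] := ∑ n ∈ range M, C ((b n * ρ ^ n : ℝ) : ℂ) * X ^ n with hp
  have hev : ∀ w : ℂ, p.eval w = ∑ n ∈ range M, ((b n * ρ ^ n : ℝ) : ℂ) * w ^ n := by
    intro w
    rw [hp, Polynomial.eval_finsetSum]
    exact Finset.sum_congr rfl fun i _ => by simp
  have hev2 : ∀ θ : ℝ, p.eval (ce θ) = ev b (cz ρ θ) := by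
    intro θ
    rw [hev]
    unfold ev cz ce
    rw [tsum_eq_sum (s := range M)]
    · refine Finset.sum_congr rfl fun n _ => ?_
      rw [mul_pow]; push_cast; ring
    · intro n hn
      rw [hbM n (by simpa using hn)]; simp
  have hcoeff : p.coeff 0 = (b 0 : ℂ) := by
    have hM : 0 < M := by
      rcases Nat.eq_zero_or_pos M with h | h
      · rw [hbM 0 (by omega), abs_zero] at hb0; linarith
      · exact h
    rw [hp, Polynomial.finsetSum_coeff]
    simp only [Polynomial.coeff_C_mul, Polynomial.coeff_X_pow]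
    rw [Finset.sum_eq_single 0]
    · simp
    · intro j _ hj
      rw [if_neg (fun h => hj h.symm), mul_zero]
    · intro h; exact absurd (mem_range.2 hM) h
  have h1 := jensen p (by rw [hcoeff, Complex.norm_real, Real.norm_eq_abs]; exact hb0) hS
    (fun z hz => ?_) hη hη1
  · simp only [hev2] at h1
    exact h1
  · rw [hev]
    refine (norm_sum_le _ _).trans (le_trans (Finset.sum_le_sum fun n _ => ?_) hbS)
    rw [norm_mul, norm_pow, hz, one_pow, mul_one, Complex.norm_real, Real.norm_eq_abs, abs_mul,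
      abs_of_nonneg (pow_nonneg hρ0 n)]
    calc |b n| * ρ ^ n ≤ |b n| * 1 :=
          mul_le_mul_of_nonneg_left (pow_le_one₀ hρ0 hρ1) (abs_nonneg _)
      _ = |b n| := mul_one _

end Pool.Agent.U204.SP
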