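import Pool.Agent.U204.SP.Energy

/-!
# Doubling scales and the counting theorem
-/

set_option autoImplicit false

open Finset MeasureTheory Filter Topology

namespace Pool.Agent.U204.SP

open Pool.Agent.U204.RF

/-- the scales -/
noncomputable def W (i : ℕ) : ℝ := Real.exp (-(1 / 2) ^ i)

theorem W_pos (i : ℕ) : 0 < W i := Real.exp_pos _

theorem W_lt_one (i : ℕ) : W i < 1 := by
  unfold W
  rw [Real.exp_lt_one_iff]
  have : (0 : ℝ) < (1 / 2) ^ i := by positivity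
  linarith

theorem W_sq (i : ℕ) : W (i + 1) ^ 2 = W i := by
  unfold W
  rw [← Real.exp_nat_mul]
  congr 1
  rw [pow_succ]; push_cast; ring

theorem inv_W (i : ℕ) : (1 - W i)⁻¹ ≤ 2 * 2 ^ i := by
  have hx0 : (0 : ℝ) < (1 / 2) ^ i := by positivity
  have hx1 : ((1 : ℝ) / 2) ^ i ≤ 1 := pow_le_one₀ (by norm_num) (by norm_num)
  have h1 : (1 / 2) ^ i / 2 ≤ 1 - W i := by
    unfold W
    have h2 : Real.exp (-(1 / 2 : ℝ) ^ i) ≤ 1 / (1 + (1 / 2) ^ i) := by
      rw [Real.exp_neg, ← one_div]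
      apply one_div_le_one_div_of_le (by linarith)
      linarith [Real.add_one_le_exp (((1 : ℝ) / 2) ^ i)]
    have h3 : 1 / (1 + ((1 : ℝ) / 2) ^ i) ≤ 1 - (1 / 2) ^ i / 2 := by
      rw [div_le_iff₀ (by linarith)]
      nlinarith
    linarith
  have h4 : (1 - W i)⁻¹ ≤ ((1 / 2) ^ i / 2 : ℝ)⁻¹ := inv_anti₀ (by positivity) h1
  refine h4.trans (le_of_eq ?_)
  rw [inv_div, one_div, inv_pow, div_inv_eq_mul]

theorem sv_chi_pos {A : Set ℕ} (hA : A.Nonempty) {y : ℝ} (h0 : 0 < y) (h1 : y < 1) :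
    0 < sv (chi A) y := by
  obtain ⟨a, ha⟩ := hA
  unfold sv
  refine lt_of_lt_of_le ?_ (((good_chi A).summable h0.le h1).sum_le_tsum {a} fun n _ =>
    mul_nonneg (chi_nonneg A n) (by positivity))
  rw [sum_singleton]
  unfold chi
  rw [if_pos ha, one_mul]
  positivity

theorem sv_le_inv {c : ℕ → ℝ} {K : ℝ} (hc0 : ∀ n, 0 ≤ c n) (hc : ∀ n, c n ≤ K) {y : ℝ}
    (h0 : 0 ≤ y) (h1 : y < 1) : sv c y ≤ K * (1 - y)⁻¹ := by
  have hg : Good c := Good.of_bdd (a := K) fun n => by rw [abs_of_nonneg (hc0 n)]; exact hc n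
  unfold sv
  rw [← tsum_geometric_of_lt_one h0 h1, ← tsum_mul_left]
  exact (hg.summable h0 h1).tsum_le_tsum
    (fun n => mul_le_mul_of_nonneg_right (hc n) (by positivity))
    ((summable_geometric_of_lt_one h0 h1).mul_left K)

/-- the counting function does not grow too fast at infinitely many scales -/
theorem doubling {A : Set ℕ} (hA : A.Nonempty) (j : ℕ) {K : ℝ} (hK : 1 ≤ K)
    (hr : ∀ n, rr A (j + 2) n ≤ K) (i₀ : ℕ) :
    ∃ i, i₀ ≤ i ∧ sv (chi A) (W (i + 1)) ≤ 2 * sv (chi A) (W i) := by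
  by_contra hcon
  push Not at hcon
  set c := sv (chi A) (W i₀) with hc
  have hc0 : 0 < c := sv_chi_pos hA (W_pos i₀) (W_lt_one i₀)
  have h1 : ∀ t, 2 ^ t * c ≤ sv (chi A) (W (i₀ + t)) := by
    intro t
    induction t with
    | zero => simp [hc]
    | succ t ih =>
      have := hcon (i₀ + t) (by omega)
      rw [pow_succ, ← add_assoc]
      linarith
  have h2 : ∀ t, (2 ^ t * c) ^ (j + 2) ≤ K * (2 * 2 ^ (i₀ + t)) := by
    intro t
    have e : sv (chi A) (W (i₀ + t)) ^ (j + 2) ≤ K * (1 - W (i₀ + t))⁻¹ := by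
      rw [← sv_r A (j + 2) (W_pos _).le (W_lt_one _)]
      exact sv_le_inv (fun n => Nat.cast_nonneg _) hr (W_pos _).le (W_lt_one _)
    calc (2 ^ t * c) ^ (j + 2) ≤ sv (chi A) (W (i₀ + t)) ^ (j + 2) :=
          pow_le_pow_left₀ (by positivity) (h1 t) _
      _ ≤ K * (1 - W (i₀ + t))⁻¹ := e
      _ ≤ _ := mul_le_mul_of_nonneg_left (inv_W _) (by linarith)
  have h3 : ∀ t : ℕ, (2 : ℝ) ^ t ≤ K * (2 * 2 ^ i₀) / c ^ (j + 2) := by
    intro t
    rw [le_div_iff₀ (by positivity)]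
    have h4 := h2 t
    have h5 : (2 : ℝ) ^ t * (2 ^ t * c ^ (j + 2)) ≤ 2 ^ t * (K * (2 * 2 ^ i₀)) := by
      calc (2 : ℝ) ^ t * (2 ^ t * c ^ (j + 2)) = (2 ^ t) ^ 2 * c ^ (j + 2) := by ring
        _ ≤ (2 ^ t) ^ (j + 2) * c ^ (j + 2) := by
            refine mul_le_mul_of_nonneg_right ?_ (by positivity)
            exact pow_le_pow_right₀ (one_le_pow₀ (by norm_num)) (by omega)
        _ = (2 ^ t * c) ^ (j + 2) := by rw [mul_pow]
        _ ≤ _ := h4
        _ = _ := by rw [pow_add]; ring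
    exact le_of_mul_le_mul_left h5 (by positivity)
  obtain ⟨t, ht⟩ := pow_unbounded_of_one_lt (K * (2 * 2 ^ i₀) / c ^ (j + 2)) (one_lt_two)
  exact absurd (h3 t) (not_le.2 ht)

/-- the number of elements of `A` below `N` -/
theorem card_le_sv (A : Set ℕ) (N : ℕ) {y : ℝ} (h0 : 0 < y) (h1 : y < 1) :
    ((A ∩ {n | n < N}).ncard : ℝ) * y ^ N ≤ sv (chi A) y := by
  classical
  set F : Finset ℕ := (range N).filter fun n => n ∈ A with hF
  have hFA : ((A ∩ {n | n < N}).ncard : ℝ) = F.card := by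
    rw [← Set.ncard_coe_finset]
    congr 2
    ext n
    simp [hF, and_comm]
  rw [hFA]
  unfold sv
  refine le_trans ?_ (((good_chi A).summable h0.le h1).sum_le_tsum F fun n _ =>
    mul_nonneg (chi_nonneg A n) (by positivity))
  rw [← nsmul_eq_mul, ← Finset.sum_const]
  refine sum_le_sum fun n hn => ?_
  rw [hF, mem_filter, mem_range] at hn
  unfold chi
  rw [if_pos hn.2, one_mul]
  exact pow_le_pow_of_le_one h0.le h1.le hn.1.le

/-- The counting theorem for finite predictors. -/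
theorem count_main (j : ℕ) {K S : ℝ} (hK : 1 ≤ K) (hS : 1 ≤ S) :
    ∃ δ : ℝ, 0 < δ ∧ ∀ A : Set ℕ, A.Nonempty → (∀ n, rr A (j + 2) n ≤ K) →
      ∀ N₀ : ℕ, ∃ N : ℕ, N₀ ≤ N ∧ ∀ b : ℕ → ℝ, Pred b S →
        δ * ((A ∩ {n | n < N}).ncard : ℝ) ^ (j + 2) ≤
          (((range N).filter fun n => δ ≤ |conv b (rr A (j + 2)) n|).card : ℝ) := by
  set η := eta K S with hη
  have hη0 : 0 < η := eta_pos K S
  set q : ℝ := η ^ 2 / 4 ^ (j + 2) with hq
  have hq0 : 0 < q := by positivity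
  have hS0 : 0 < S := by linarith
  have hK0 : 0 < K := by linarith
  -- the parameter of the tail
  obtain ⟨l, hl⟩ := exists_nat_gt (Real.log (4 * (S * K * (S * 2 ^ (j + 2))) / q))
  have hl' : Real.exp (-(l : ℝ)) * (S * K * (S * 2 ^ (j + 2))) ≤ q / 4 := by
    have h1 : 4 * (S * K * (S * 2 ^ (j + 2))) / q ≤ Real.exp l := by
      have h2 : 0 < 4 * (S * K * (S * 2 ^ (j + 2))) / q := by positivity
      calc _ = Real.exp (Real.log (4 * (S * K * (S * 2 ^ (j + 2))) / q)) := (Real.exp_log h2).symm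
        _ ≤ _ := Real.exp_le_exp.2 hl.le
    rw [Real.exp_neg, inv_mul_le_iff₀ (Real.exp_pos _)]
    rw [div_le_iff₀ hq0] at h1
    linarith
  set δ₁ : ℝ := q / (4 * S) with hδ₁
  have hδ₁0 : 0 < δ₁ := by positivity
  set δ₂ : ℝ := q / (2 * (S * K) ^ 2 * (Real.exp (2 * ((l : ℝ) + 1))) ^ (j + 2)) with hδ₂
  have hδ₂0 : 0 < δ₂ := by positivity
  refine ⟨min δ₁ δ₂, lt_min hδ₁0 hδ₂0, fun A hA hr N₀ => ?_⟩
  obtain ⟨i, hi, hdb⟩ := doubling hA j hK hr N₀
  set w := W (i + 1) with hw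
  have hw0 : 0 < w := W_pos _
  have hw1 : w < 1 := W_lt_one _
  have hw2 : w ^ 2 = W i := W_sq i
  set a := sv (chi A) (w ^ 2) with ha
  have ha0 : 0 < a := by
    rw [ha, hw2]; exact sv_chi_pos hA (W_pos _) (W_lt_one _)
  set N : ℕ := (l + 1) * 2 ^ (i + 1) with hN
  have hNe : w ^ N = Real.exp (-((l : ℝ) + 1)) := by
    rw [hw]; unfold W
    rw [← Real.exp_nat_mul, hN]
    congr 1
    push_cast
    have h3 : (2 : ℝ) ^ (i + 1) * (1 / 2) ^ (i + 1) = 1 := by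
      rw [← mul_pow]; norm_num
    linear_combination -((l : ℝ) + 1) * h3
  have hNw : w ^ N ≤ Real.exp (-(l : ℝ)) := by
    rw [hNe, Real.exp_le_exp]; linarith
  have hN₀ : N₀ ≤ N := by
    have h3 : i + 1 < 2 ^ (i + 1) := Nat.lt_two_pow_self
    have h4 : 2 ^ (i + 1) ≤ (l + 1) * 2 ^ (i + 1) := Nat.le_mul_of_pos_left _ (by omega)
    omega
  refine ⟨N, hN₀, fun b hb => ?_⟩
  set δ := min δ₁ δ₂ with hδ
  have hδ0 : 0 < δ := lt_min hδ₁0 hδ₂0
  have key := count_scale A j hK hr hb hw0.le hw1 ha0 hδ0.le N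
  set cnt : ℝ := (((range N).filter fun n => δ ≤ |conv b (rr A (j + 2)) n|).card : ℝ) with hcnt
  rw [← ha] at key
  have hah : 0 < a ^ (j + 2) := by positivity
  have e1 : eta K S ^ 2 * (a / 4) ^ (j + 2) = q * a ^ (j + 2) := by
    rw [hq, div_pow, ← hη]; ring
  have e2 : δ * (S * a ^ (j + 2)) ≤ q / 4 * a ^ (j + 2) := by
    calc δ * (S * a ^ (j + 2)) ≤ δ₁ * (S * a ^ (j + 2)) :=
          mul_le_mul_of_nonneg_right (min_le_left _ _) (by positivity)
      _ = q / 4 * a ^ (j + 2) := by rw [hδ₁]; field_simp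
  have e3 : w ^ N * (S * K * (S * sv (chi A) w ^ (j + 2))) ≤ q / 4 * a ^ (j + 2) := by
    have h5 : sv (chi A) w ^ (j + 2) ≤ 2 ^ (j + 2) * a ^ (j + 2) := by
      rw [← mul_pow]
      refine pow_le_pow_left₀ (sv_nonneg (chi_nonneg A) hw0.le) ?_ _
      rw [ha, hw2]; exact hdb
    have h6 : 0 ≤ sv (chi A) w ^ (j + 2) := pow_nonneg (sv_nonneg (chi_nonneg A) hw0.le) _
    calc w ^ N * (S * K * (S * sv (chi A) w ^ (j + 2)))
        ≤ Real.exp (-(l : ℝ)) * (S * K * (S * (2 ^ (j + 2) * a ^ (j + 2)))) := by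
          refine mul_le_mul hNw ?_ (by positivity) (Real.exp_pos _).le
          exact mul_le_mul_of_nonneg_left (mul_le_mul_of_nonneg_left h5 hS0.le) (by positivity)
      _ = Real.exp (-(l : ℝ)) * (S * K * (S * 2 ^ (j + 2))) * a ^ (j + 2) := by ring
      _ ≤ q / 4 * a ^ (j + 2) := mul_le_mul_of_nonneg_right hl' hah.le
  rw [e1] at key
  have h7 : q / 2 * a ^ (j + 2) ≤ (S * K) ^ 2 * cnt := by linarith
  have h8 : q / (2 * (S * K) ^ 2) * a ^ (j + 2) ≤ cnt := by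
    have h9 : q / (2 * (S * K) ^ 2) * a ^ (j + 2) = (q / 2 * a ^ (j + 2)) / (S * K) ^ 2 := by
      field_simp
    rw [h9, div_le_iff₀ (by positivity)]
    linarith
  have hE := Real.exp_pos (2 * ((l : ℝ) + 1))
  have h10 : ((A ∩ {n | n < N}).ncard : ℝ) ≤ a * Real.exp (2 * ((l : ℝ) + 1)) := by
    have h11 := card_le_sv A N (y := w ^ 2) (by positivity) (by nlinarith)
    rw [← pow_mul, mul_comm 2 N, pow_mul, hNe, ← Real.exp_nat_mul] at h11
    have h12 : ((2 : ℕ) : ℝ) * (-((l : ℝ) + 1)) = -(2 * ((l : ℝ) + 1)) := by push_cast; ring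
    rw [h12, Real.exp_neg, ← div_eq_mul_inv, div_le_iff₀ hE] at h11
    exact h11
  have h13 : ((A ∩ {n | n < N}).ncard : ℝ) ^ (j + 2) ≤
      a ^ (j + 2) * Real.exp (2 * ((l : ℝ) + 1)) ^ (j + 2) := by
    rw [← mul_pow]; exact pow_le_pow_left₀ (Nat.cast_nonneg _) h10 _
  calc δ * ((A ∩ {n | n < N}).ncard : ℝ) ^ (j + 2)
      ≤ δ₂ * (a ^ (j + 2) * Real.exp (2 * ((l : ℝ) + 1)) ^ (j + 2)) :=
        mul_le_mul (min_le_right _ _) h13 (by positivity) hδ₂0.le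
    _ = q / (2 * (S * K) ^ 2) * a ^ (j + 2) := by rw [hδ₂]; field_simp
    _ ≤ cnt := h8

end Pool.Agent.U204.SP
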