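import Pool.Agent.U204.SP.General

/-!
# Independence of the translates of a bounded representation function
-/

set_option autoImplicit false

open Finset MeasureTheory Filter Topology

namespace Pool.Agent.U204.SP

open Pool.Agent.U204.RF

/-- the coefficients `b` restricted to `I` -/
noncomputable def res (I : Finset ℕ) (b : ℕ → ℝ) (n : ℕ) : ℝ := if n ∈ I then b n else 0

theorem wt_res {I : Finset ℕ} {b : ℕ → ℝ} {s : ℕ} (hI : I.card ≤ s) (hb : ∀ x ∈ I, |b x| ≤ 1) :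
    Wt (res I b) ((s : ℝ) + 1) := by
  refine ⟨⟨I.sup id + 1, fun n hn => ?_⟩, fun m => ?_, by
    have : (0 : ℝ) ≤ s := Nat.cast_nonneg s
    linarith⟩
  · unfold res
    rw [if_neg]
    intro h
    have := Finset.le_sup (f := id) h
    simp only [id] at this
    omega
  · calc ∑ n ∈ range m, |res I b n| ≤ ∑ n ∈ range m, if n ∈ I then (1 : ℝ) else 0 := by
          refine sum_le_sum fun n _ => ?_
          unfold res
          split_ifs with h
          · exact hb n h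
          · rw [abs_zero]
      _ = (((range m).filter fun n => n ∈ I).card : ℝ) := by rw [sum_boole]
      _ ≤ (I.card : ℝ) := by
          exact_mod_cast card_le_card fun n hn => (mem_filter.1 hn).2
      _ ≤ (s : ℝ) + 1 := by
          have : (I.card : ℝ) ≤ s := by exact_mod_cast hI
          linarith

/-- the small values of `ev (res I b)` on the circle of radius `w` -/
theorem res_small {s : ℕ} {ε η : ℝ}
    (H : ∀ I : Finset ℤ, I.card ≤ s → ∀ c : ℤ → ℂ, ∀ k ∈ I, 1 ≤ ‖c k‖ →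
      mu.real {θ : ℝ | ‖ES I c θ‖ < η} ≤ ε)
    {I : Finset ℕ} (hI : I.card ≤ s) {b : ℕ → ℝ} {k : ℕ} (hk : k ∈ I) (hbk : |b k| = 1)
    {w : ℝ} (hw : 0 < w) (hwk : Real.exp (-1) ≤ w ^ k) :
    mu.real {θ : ℝ | ‖ev (res I b) (cz w θ)‖ < η * Real.exp (-1)} ≤ ε := by
  classical
  set c : ℤ → ℂ := fun x => ((b x.toNat * w ^ x.toNat * Real.exp 1 : ℝ) : ℂ) with hc
  set I' : Finset ℤ := I.map ⟨fun x : ℕ => (x : ℤ), Nat.cast_injective⟩ with hI'
  have h1 := H I' (by rw [hI', card_map]; exact hI) c (k : ℤ)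
    (by rw [hI', Finset.mem_map]; exact ⟨k, hk, rfl⟩) (by
      simp only [hc, Int.toNat_natCast]
      rw [Complex.norm_real, Real.norm_eq_abs, abs_mul, abs_mul, hbk, one_mul,
        abs_of_pos (pow_pos hw k), abs_of_pos (Real.exp_pos 1)]
      calc (1 : ℝ) = Real.exp (-1) * Real.exp 1 := by rw [← Real.exp_add]; simp
        _ ≤ _ := mul_le_mul_of_nonneg_right hwk (Real.exp_pos _).le)
  refine le_trans (measureReal_mono ?_) h1
  intro θ hθ
  simp only [Set.mem_ofPred_eq] at hθ ⊢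
  have hES : ES I' c θ = (Real.exp 1 : ℂ) * ev (res I b) (cz w θ) := by
    unfold ES ev
    rw [hI', sum_map, tsum_eq_sum (s := I), mul_sum]
    · refine sum_congr rfl fun x hx => ?_
      simp only [hc, Function.Embedding.coeFn_mk, Int.toNat_natCast]
      have e1 : ce (((x : ℤ) : ℝ) * θ) = ce θ ^ x := by
        unfold ce
        rw [← Complex.exp_nat_mul]; congr 1; push_cast; ring
      have e2 : cz w θ = (w : ℂ) * ce θ := rfl
      rw [e1, e2, mul_pow]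
      unfold res
      rw [if_pos hx]
      push_cast; ring
    · intro n hn
      unfold res
      rw [if_neg hn]; simp
  rw [hES, norm_mul]
  have e3 : ‖(Real.exp 1 : ℂ)‖ = Real.exp 1 := by
    rw [Complex.norm_real, Real.norm_of_nonneg (Real.exp_pos 1).le]
  rw [e3]
  calc Real.exp 1 * ‖ev (res I b) (cz w θ)‖ < Real.exp 1 * (η * Real.exp (-1)) :=
        mul_lt_mul_of_pos_left hθ (Real.exp_pos 1)
    _ = η * (Real.exp 1 * Real.exp (-1)) := by ring
    _ = η := by rw [← Real.exp_add]; simp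

theorem count_shifts (j s : ℕ) {K : ℝ} (hK : 1 ≤ K) :
    ∃ (δ : ℝ) (M : ℕ), 0 < δ ∧ 1 ≤ M ∧ ∀ A : Set ℕ, A.Nonempty → (∀ n, rr A (j + 2) n ≤ K) →
      ∀ N₀ : ℕ, ∃ N : ℕ, N₀ ≤ N ∧ ∀ I : Finset ℕ, I.card ≤ s → (∀ x ∈ I, x ≤ N) →
        ∀ b : ℕ → ℝ, (∀ x ∈ I, |b x| ≤ 1) → (∃ k ∈ I, |b k| = 1) →
        δ * ((A ∩ {n | n < M * N}).ncard : ℝ) ^ (j + 2) ≤
          (((range (M * N)).filter fun n => δ ≤ |conv (res I b) (rr A (j + 2)) n|).card : ℝ) := by
  obtain ⟨η₀, hη₀, Hη⟩ := sparse_small s (1 / (4 * (4 * K))) (by positivity)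
  set η := η₀ * Real.exp (-1) with hη
  have hη0 : 0 < η := mul_pos hη₀ (Real.exp_pos _)
  set S : ℝ := (s : ℝ) + 1 with hSd
  have hS : 1 ≤ S := by
    have : (0 : ℝ) ≤ s := Nat.cast_nonneg s
    linarith
  set q : ℝ := η ^ 2 / 4 ^ (j + 2) with hq
  have hq0 : 0 < q := by positivity
  have hS0 : 0 < S := by linarith
  have hK0 : 0 < K := by linarith
  -- the parameter of the tail
  obtain ⟨l, hl⟩ := exists_nat_gt (Real.log (4 * (S * K * (S * 2 ^ (j + 2))) / q))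
  have hl' : Real.exp (-(l : ℝ)) * (S * K * (S * 2 ^ (j + 2))) ≤ q / 4 := by
    have h1 : 4 * (S * K * (S * 2 ^ (j + 2))) / q ≤ Real.exp l := by
      have h2 : 0 < 4 * (S * K * (S * 2 ^ (j + 2))) / q := by positivity
      calc _ = Real.exp (Real.log (4 * (S * K * (S * 2 ^ (j + 2))) / q)) := (Real.exp_log h2).symm
        _ ≤ _ := Real.exp_le_exp.2 hl.le
    rw [Real.exp_neg, inv_mul_le_iff₀ (Real.exp_pos _)]
    rw [div_le_iff₀ hq0] at h1
    linarith
  set δ₁ : ℝ := q / (4 * S) with hδ₁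
  have hδ₁0 : 0 < δ₁ := by positivity
  set δ₂ : ℝ := q / (2 * (S * K) ^ 2 * (Real.exp (2 * ((l : ℝ) + 1))) ^ (j + 2)) with hδ₂
  have hδ₂0 : 0 < δ₂ := by positivity
  refine ⟨min δ₁ δ₂, l + 1, lt_min hδ₁0 hδ₂0, by omega, fun A hA hr N₀ => ?_⟩
  obtain ⟨i, hi, hdb⟩ := doubling hA j hK hr N₀
  set w := W (i + 1) with hw
  have hw0 : 0 < w := W_pos _
  have hw1 : w < 1 := W_lt_one _
  have hw2 : w ^ 2 = W i := W_sq i
  set a := sv (chi A) (w ^ 2) with ha
  have ha0 : 0 < a := by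
    rw [ha, hw2]; exact sv_chi_pos hA (W_pos _) (W_lt_one _)
  have hwN : w ^ (2 ^ (i + 1)) = Real.exp (-1) := by
    rw [hw]; unfold W
    rw [← Real.exp_nat_mul]
    congr 1
    push_cast
    have h3 : (2 : ℝ) ^ (i + 1) * (1 / 2) ^ (i + 1) = 1 := by
      rw [← mul_pow]; norm_num
    linear_combination -1 * h3
  set N : ℕ := (l + 1) * 2 ^ (i + 1) with hN
  have hNe : w ^ N = Real.exp (-((l : ℝ) + 1)) := by
    rw [hN, mul_comm, pow_mul, hwN, ← Real.exp_nat_mul]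
    congr 1
    push_cast; ring
  have hNw : w ^ N ≤ Real.exp (-(l : ℝ)) := by
    rw [hNe, Real.exp_le_exp]; linarith
  have hN₀ : N₀ ≤ 2 ^ (i + 1) := by
    have h3 : i + 1 < 2 ^ (i + 1) := Nat.lt_two_pow_self
    omega
  refine ⟨2 ^ (i + 1), hN₀, fun I hI hIN b hb1 hbk => ?_⟩
  obtain ⟨k, hk, hbk⟩ := hbk
  have hb := wt_res hI hb1
  rw [← hSd] at hb
  have hVmu : mu.real {θ : ℝ | ‖ev (res I b) (cz w θ)‖ < η} ≤ 1 / (4 * (4 * K)) :=
    res_small Hη hI hk hbk hw0 (by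
      rw [← hwN]; exact pow_le_pow_of_le_one hw0.le hw1.le (hIN k hk))
  set δ := min δ₁ δ₂ with hδ
  have hδ0 : 0 < δ := lt_min hδ₁0 hδ₂0
  have key := count_scale' A j hη0 hK hr hb hw0.le hw1 ha0 hVmu hδ0.le N
  set cnt : ℝ := (((range N).filter fun n => δ ≤ |conv (res I b) (rr A (j + 2)) n|).card : ℝ)
    with hcnt
  rw [← ha] at key
  have hah : 0 < a ^ (j + 2) := by positivity
  have e1 : η ^ 2 * (a / 4) ^ (j + 2) = q * a ^ (j + 2) := by
    rw [hq, div_pow]; ring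
  have e2 : δ * (S * a ^ (j + 2)) ≤ q / 4 * a ^ (j + 2) := by
    calc δ * (S * a ^ (j + 2)) ≤ δ₁ * (S * a ^ (j + 2)) :=
          mul_le_mul_of_nonneg_right (min_le_left _ _) (by positivity)
      _ = q / 4 * a ^ (j + 2) := by rw [hδ₁]; field_simp
  have e3 : w ^ N * (S * K * (S * sv (chi A) w ^ (j + 2))) ≤ q / 4 * a ^ (j + 2) := by
    have h5 : sv (chi A) w ^ (j + 2) ≤ 2 ^ (j + 2) * a ^ (j + 2) := by
      rw [← mul_pow]
      refine pow_le_pow_left₀ (sv_nonneg (chi_nonneg A) hw0.le) ?_ _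
      rw [ha, hw2]; exact hdb
    have h6 : 0 ≤ sv (chi A) w ^ (j + 2) := pow_nonneg (sv_nonneg (chi_nonneg A) hw0.le) _
    calc w ^ N * (S * K * (S * sv (chi A) w ^ (j + 2)))
        ≤ Real.exp (-(l : ℝ)) * (S * K * (S * (2 ^ (j + 2) * a ^ (j + 2)))) := by
          refine mul_le_mul hNw ?_ (by positivity) (Real.exp_pos _).le
          exact mul_le_mul_of_nonneg_left (mul_le_mul_of_nonneg_left h5 hS0.le) (by positivity)
      _ = Real.exp (-(l : ℝ)) * (S * K * (S * 2 ^ (j + 2))) * a ^ (j + 2) := by ring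
      _ ≤ q / 4 * a ^ (j + 2) := mul_le_mul_of_nonneg_right hl' hah.le
  rw [e1] at key
  have h7 : q / 2 * a ^ (j + 2) ≤ (S * K) ^ 2 * cnt := by linarith
  have h8 : q / (2 * (S * K) ^ 2) * a ^ (j + 2) ≤ cnt := by
    have h9 : q / (2 * (S * K) ^ 2) * a ^ (j + 2) = (q / 2 * a ^ (j + 2)) / (S * K) ^ 2 := by
      field_simp
    rw [h9, div_le_iff₀ (by positivity)]
    linarith
  have hE := Real.exp_pos (2 * ((l : ℝ) + 1))
  have h10 : ((A ∩ {n | n < N}).ncard : ℝ) ≤ a * Real.exp (2 * ((l : ℝ) + 1)) := by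
    have h11 := card_le_sv A N (y := w ^ 2) (by positivity) (by nlinarith)
    rw [← pow_mul, mul_comm 2 N, pow_mul, hNe, ← Real.exp_nat_mul] at h11
    have h12 : ((2 : ℕ) : ℝ) * (-((l : ℝ) + 1)) = -(2 * ((l : ℝ) + 1)) := by push_cast; ring
    rw [h12, Real.exp_neg, ← div_eq_mul_inv, div_le_iff₀ hE] at h11
    exact h11
  have h13 : ((A ∩ {n | n < N}).ncard : ℝ) ^ (j + 2) ≤
      a ^ (j + 2) * Real.exp (2 * ((l : ℝ) + 1)) ^ (j + 2) := by
    rw [← mul_pow]; exact pow_le_pow_left₀ (Nat.cast_nonneg _) h10 _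
  calc δ * ((A ∩ {n | n < N}).ncard : ℝ) ^ (j + 2)
      ≤ δ₂ * (a ^ (j + 2) * Real.exp (2 * ((l : ℝ) + 1)) ^ (j + 2)) :=
        mul_le_mul (min_le_right _ _) h13 (by positivity) hδ₂0.le
    _ = q / (2 * (S * K) ^ 2) * a ^ (j + 2) := by rw [hδ₂]; field_simp
    _ ≤ cnt := h8

end Pool.Agent.U204.SP
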