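import Pool.Agent.U204.SP.Scales

/-!
# Small values of exponential sums with few terms and arbitrary integer frequencies are rare
-/

set_option autoImplicit false

open Finset MeasureTheory Filter Topology

namespace Pool.Agent.U204.SP

open Pool.Agent.U204.RF

theorem ce_add (x y : ℝ) : ce (x + y) = ce x * ce y := by
  unfold ce
  rw [← Complex.exp_add]; congr 1; push_cast; ring

theorem ce_zero : ce 0 = 1 := by unfold ce; simp

theorem ce_int_periodic (k : ℤ) (x : ℝ) : ce (x + k * (2 * Real.pi)) = ce x := by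
  have := ce_periodic.int_mul k x
  exact this

/-- translation invariance -/
theorem mu_shift {V : Set ℝ} (hV : MeasurableSet V)
    (hp : ∀ θ, θ + 2 * Real.pi ∈ V ↔ θ ∈ V) (t : ℝ) :
    mu.real {θ | θ + t ∈ V} = mu.real V := by
  set g : ℝ → ℝ := V.indicator (fun _ => 1) with hg
  have hm2 : MeasurableSet {θ : ℝ | θ + t ∈ V} := (measurable_id.add_const t) hV
  have hper : Function.Periodic g (2 * Real.pi) := by
    intro θ
    by_cases hθ : θ ∈ V
    · rw [hg, Set.indicator_of_mem hθ, Set.indicator_of_mem ((hp θ).2 hθ)]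
    · rw [hg, Set.indicator_of_notMem hθ, Set.indicator_of_notMem (fun h => hθ ((hp θ).1 h))]
  have e1 : mu.real V = ∫ θ, g θ ∂mu := by
    rw [hg, integral_indicator_const _ hV, smul_eq_mul, mul_one]
  have e2 : mu.real {θ | θ + t ∈ V} = ∫ θ, g (θ + t) ∂mu := by
    have : (fun θ : ℝ => g (θ + t)) = Set.indicator {θ : ℝ | θ + t ∈ V} (fun _ => (1 : ℝ)) := by
      funext θ
      simp only [hg, Set.indicator, Set.mem_ofPred_eq]
    rw [this, integral_indicator_const _ hm2, smul_eq_mul, mul_one]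
  rw [e1, e2, integral_mu, integral_mu]
  congr 1
  rw [intervalIntegral.integral_comp_add_right]
  have h2 := hper.intervalIntegral_add_eq (-Real.pi + t) (-Real.pi)
  have e4 : -Real.pi + 2 * Real.pi = Real.pi := by ring
  have e5 : -Real.pi + t + 2 * Real.pi = Real.pi + t := by ring
  rw [e4, e5] at h2
  exact h2

/-- if many sets have measure larger than `ε` then two of them have a large intersection -/
theorem exists_pair {V : ℕ → Set ℝ} (hV : ∀ i, MeasurableSet (V i)) {ε : ℝ} (hε : 0 < ε)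
    (hm : ∀ i, ε < mu.real (V i)) {m : ℕ} (hm2 : 2 / ε ^ 2 < m) :
    ∃ i < m, ∃ j < m, i ≠ j ∧ ε ^ 2 / 2 < mu.real (V i ∩ V j) := by
  by_contra hcon
  push Not at hcon
  have hmpos : (0 : ℝ) < m := lt_trans (by positivity) hm2
  set g : ℝ → ℝ := fun θ => ∑ i ∈ range m, (V i).indicator (fun _ => (1 : ℝ)) θ with hg
  have hi : ∀ i, Integrable ((V i).indicator (fun _ => (1 : ℝ))) mu := fun i =>
    (integrable_const (1 : ℝ)).indicator (hV i)
  have e1 : ∫ θ, g θ ∂mu = ∑ i ∈ range m, mu.real (V i) := by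
    rw [hg, integral_finsetSum _ fun i _ => hi i]
    refine sum_congr rfl fun i _ => ?_
    rw [integral_indicator_const _ (hV i), smul_eq_mul, mul_one]
  have hij : ∀ i j, (fun θ => (V i).indicator (fun _ => (1 : ℝ)) θ *
      (V j).indicator (fun _ => (1 : ℝ)) θ) = (V i ∩ V j).indicator (fun _ => (1 : ℝ)) := by
    intro i j
    funext θ
    by_cases h1 : θ ∈ V i <;> by_cases h2 : θ ∈ V j <;> simp [Set.indicator, h1, h2]
  have hgi : Integrable g mu := integrable_finsetSum _ fun i _ => hi i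
  have hsq : (fun θ => g θ ^ 2) = fun θ => ∑ i ∈ range m, ∑ j ∈ range m,
      (V i ∩ V j).indicator (fun _ => (1 : ℝ)) θ := by
    funext θ
    rw [hg]
    simp only
    rw [sq, sum_mul_sum]
    refine sum_congr rfl fun i _ => sum_congr rfl fun j _ => ?_
    exact congrFun (hij i j) θ
  have hi2 : ∀ i j, Integrable ((V i ∩ V j).indicator (fun _ => (1 : ℝ))) mu := fun i j =>
    (integrable_const (1 : ℝ)).indicator ((hV i).inter (hV j))
  have hg2i : Integrable (fun θ => g θ ^ 2) mu := by
    rw [hsq]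
    exact integrable_finsetSum _ fun i _ => integrable_finsetSum _ fun j _ => hi2 i j
  have e2 : ∫ θ, g θ ^ 2 ∂mu = ∑ i ∈ range m, ∑ j ∈ range m, mu.real (V i ∩ V j) := by
    rw [hsq, integral_finsetSum _ fun i _ => integrable_finsetSum _ fun j _ => hi2 i j]
    refine sum_congr rfl fun i _ => ?_
    rw [integral_finsetSum _ fun j _ => hi2 i j]
    refine sum_congr rfl fun j _ => ?_
    rw [integral_indicator_const _ ((hV i).inter (hV j)), smul_eq_mul, mul_one]
  have e3 : (∫ θ, g θ ∂mu) ^ 2 ≤ ∫ θ, g θ ^ 2 ∂mu := by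
    set c := ∫ θ, g θ ∂mu with hc
    have h0 : 0 ≤ ∫ θ, (g θ - c) ^ 2 ∂mu := integral_nonneg fun θ => sq_nonneg _
    have h1 : ∫ θ, (g θ - c) ^ 2 ∂mu = ∫ θ, g θ ^ 2 ∂mu - 2 * c * c + c ^ 2 := by
      have : (fun θ => (g θ - c) ^ 2) = fun θ => g θ ^ 2 - 2 * c * g θ + c ^ 2 := by
        funext θ; ring
      have i1 : Integrable (fun θ => g θ ^ 2 - 2 * c * g θ) mu := hg2i.sub (hgi.const_mul _)
      rw [this]
      calc ∫ θ, (g θ ^ 2 - 2 * c * g θ + c ^ 2) ∂mu
          = ∫ θ, (g θ ^ 2 - 2 * c * g θ) ∂mu + ∫ _, c ^ 2 ∂mu :=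
            integral_add i1 (integrable_const _)
        _ = (∫ θ, g θ ^ 2 ∂mu - ∫ θ, 2 * c * g θ ∂mu) + c ^ 2 := by
            rw [integral_sub hg2i (hgi.const_mul _)]; simp
        _ = _ := by rw [integral_const_mul, ← hc]
    nlinarith
  have e4 : (m : ℝ) * ε ≤ ∫ θ, g θ ∂mu := by
    rw [e1]
    calc (m : ℝ) * ε = ∑ i ∈ range m, ε := by simp
      _ ≤ _ := sum_le_sum fun i _ => (hm i).le
  have e5 : ∑ i ∈ range m, ∑ j ∈ range m, mu.real (V i ∩ V j) ≤ m + m ^ 2 * (ε ^ 2 / 2) := by
    calc ∑ i ∈ range m, ∑ j ∈ range m, mu.real (V i ∩ V j)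
        ≤ ∑ i ∈ range m, ∑ j ∈ range m, ((if i = j then 1 else 0) + ε ^ 2 / 2) := by
          refine sum_le_sum fun i hi => sum_le_sum fun j hj => ?_
          split_ifs with hij
          · have : mu.real (V i ∩ V j) ≤ 1 := measureReal_le_one
            have : 0 < ε ^ 2 / 2 := by positivity
            linarith
          · have := hcon i (mem_range.1 hi) j (mem_range.1 hj) hij
            linarith
      _ = m + m ^ 2 * (ε ^ 2 / 2) := by
          simp only [sum_add_distrib, sum_ite_eq, mem_range, sum_const, card_range, nsmul_eq_mul]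
          have : ∑ i ∈ range m, (if i < m then (1 : ℝ) else 0) = m := by
            rw [sum_congr rfl fun i hi => if_pos (mem_range.1 hi)]; simp
          rw [this]; ring
  have e6 : ((m : ℝ) * ε) ^ 2 ≤ m + m ^ 2 * (ε ^ 2 / 2) := by
    calc ((m : ℝ) * ε) ^ 2 ≤ (∫ θ, g θ ∂mu) ^ 2 := pow_le_pow_left₀ (by positivity) e4 2
      _ ≤ ∫ θ, g θ ^ 2 ∂mu := e3
      _ ≤ _ := by rw [e2]; exact e5
  have e7 : (m : ℝ) * (m * ε ^ 2) ≤ m * 2 := by nlinarith
  have e8 : (m : ℝ) * ε ^ 2 ≤ 2 := le_of_mul_le_mul_left e7 hmpos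
  rw [div_lt_iff₀ (by positivity)] at hm2
  linarith

/-- distance of the roots of unity from `1` -/
theorem exists_kappa (m : ℕ) : ∃ κ : ℝ, 0 < κ ∧ ∀ i < m, ∀ j < m, i ≠ j →
    κ ≤ ‖ce (2 * Real.pi * ((i : ℝ) - j) / m) - 1‖ := by
  classical
  set P : Finset (ℕ × ℕ) := ((range m) ×ˢ (range m)).filter fun p => p.1 ≠ p.2 with hP
  set f : ℕ × ℕ → ℝ := fun p => ‖ce (2 * Real.pi * ((p.1 : ℝ) - p.2) / m) - 1‖ with hf
  have hpos : ∀ p ∈ P, 0 < f p := by
    intro p hp
    rw [hP, mem_filter, mem_product, mem_range, mem_range] at hp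
    obtain ⟨⟨h1, h2⟩, h3⟩ := hp
    have hm : (0 : ℝ) < m := by exact_mod_cast (lt_of_le_of_lt (Nat.zero_le _) h1)
    rw [hf]
    simp only
    rw [norm_pos_iff, sub_ne_zero]
    intro h
    unfold ce at h
    rw [Complex.exp_eq_one_iff] at h
    obtain ⟨n, hn⟩ := h
    have h4 : (2 * Real.pi * ((p.1 : ℝ) - p.2) / m : ℝ) = n * (2 * Real.pi) := by
      have h5 : (Complex.I : ℂ) * ((2 * Real.pi * ((p.1 : ℝ) - p.2) / m : ℝ) : ℂ) =
          Complex.I * ((n * (2 * Real.pi) : ℝ) : ℂ) := by
        rw [hn]; push_cast; ring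
      have h6 := mul_left_cancel₀ Complex.I_ne_zero h5
      exact_mod_cast h6
    have hpi := Real.pi_pos
    have h7 : ((p.1 : ℝ) - p.2) = n * m := by
      field_simp at h4
      nlinarith
    have h8 : (p.1 : ℤ) - p.2 = n * m := by exact_mod_cast h7
    have h9 : |(p.1 : ℤ) - p.2| < m := by
      rw [abs_lt]; constructor <;> omega
    rw [h8, abs_mul] at h9
    have h10 : n ≠ 0 := by
      rintro rfl
      apply h3
      have : (p.1 : ℤ) = p.2 := by linarith
      exact_mod_cast this
    have h11 : 1 ≤ |n| := Int.one_le_abs h10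
    have h12 : |(m : ℤ)| = m := abs_of_nonneg (by positivity)
    rw [h12] at h9
    nlinarith
  by_cases hne : P.Nonempty
  · obtain ⟨p, hp, hmin⟩ := P.exists_min_image f hne
    refine ⟨f p, hpos p hp, fun i hi j hj hij => ?_⟩
    exact hmin (i, j) (by rw [hP, mem_filter, mem_product, mem_range, mem_range]; exact ⟨⟨hi, hj⟩, hij⟩)
  · refine ⟨1, one_pos, fun i hi j hj hij => ?_⟩
    exact absurd ⟨(i, j), by rw [hP, mem_filter, mem_product, mem_range, mem_range]; exact ⟨⟨hi, hj⟩, hij⟩⟩ hne

/-- the exponential sum -/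
noncomputable def ES (I : Finset ℤ) (c : ℤ → ℂ) (θ : ℝ) : ℂ := ∑ x ∈ I, c x * ce (x * θ)

theorem continuous_ES (I : Finset ℤ) (c : ℤ → ℂ) : Continuous (ES I c) := by
  unfold ES
  exact continuous_finsetSum _ fun x _ => continuous_const.mul
    (continuous_ce.comp (continuous_const.mul continuous_id))

theorem ES_periodic (I : Finset ℤ) (c : ℤ → ℂ) (θ : ℝ) :
    ES I c (θ + 2 * Real.pi) = ES I c θ := by
  unfold ES
  refine sum_congr rfl fun x _ => ?_
  rw [mul_add, ce_int_periodic]

/-- small values are rare, uniformly in the coefficients and the frequencies -/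
theorem sparse_small (s : ℕ) : ∀ ε : ℝ, 0 < ε → ∃ η : ℝ, 0 < η ∧ ∀ I : Finset ℤ, I.card ≤ s →
    ∀ c : ℤ → ℂ, ∀ k ∈ I, 1 ≤ ‖c k‖ → mu.real {θ : ℝ | ‖ES I c θ‖ < η} ≤ ε := by
  classical
  induction s with
  | zero =>
    intro ε hε
    refine ⟨1, one_pos, fun I hI c k hk => ?_⟩
    rw [Nat.le_zero, card_eq_zero] at hI
    rw [hI] at hk
    exact absurd hk (notMem_empty k)
  | succ s ih =>
    intro ε hε
    obtain ⟨η', hη', H⟩ := ih (ε ^ 2 / 2) (by positivity)
    obtain ⟨m, hm⟩ := exists_nat_gt (2 / ε ^ 2)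
    obtain ⟨κ, hκ, Hκ⟩ := exists_kappa m
    refine ⟨min 1 (κ * η' / 2), lt_min one_pos (by positivity), fun I hI c k hk hck => ?_⟩
    set η := min 1 (κ * η' / 2) with hη
    by_contra hcon
    push Not at hcon
    set V : Set ℝ := {θ : ℝ | ‖ES I c θ‖ < η} with hV
    have hVm : MeasurableSet V :=
      (isOpen_lt (continuous_ES I c).norm continuous_const).measurableSet
    have hVp : ∀ θ, θ + 2 * Real.pi ∈ V ↔ θ ∈ V := fun θ => by
      simp only [hV, Set.mem_ofPred_eq, ES_periodic]
    by_cases hone : I = {k}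
    · have hempty : V = ∅ := by
        ext θ
        simp only [hV, Set.mem_ofPred_eq, Set.mem_empty_iff_false, iff_false, not_lt]
        rw [hone]
        unfold ES
        rw [sum_singleton, norm_mul, norm_ce, mul_one]
        exact (min_le_left _ _).trans hck
      rw [hempty, measureReal_empty] at hcon
      linarith
    · obtain ⟨l, hl, hlk⟩ : ∃ l ∈ I, l ≠ k := by
        by_contra hno
        push Not at hno
        apply hone
        ext x
        rw [mem_singleton]
        exact ⟨fun hx => hno x hx, fun hx => hx ▸ hk⟩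
      have hm0 : (0 : ℝ) < m := lt_trans (by positivity) hm
      have hkl : ((k : ℝ) - l) ≠ 0 := by
        rw [sub_ne_zero]
        exact_mod_cast hlk.symm
      set t : ℕ → ℝ := fun i => 2 * Real.pi * i / (m * ((k : ℝ) - l)) with ht
      obtain ⟨i, hi, j, hj, hij, hmu⟩ := exists_pair (V := fun i => {θ | θ + t i ∈ V})
        (fun i => (measurable_id.add_const (t i)) hVm) hε
        (fun i => by rw [mu_shift hVm hVp (t i)]; exact hcon) hm
      have hIH := H (I.erase l) (by rw [card_erase_of_mem hl]; omega)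
        (fun x => c x * ce (x * t j) * (ce (x * (t i - t j)) - ce (l * (t i - t j))) / κ) k
        (mem_erase.2 ⟨hlk.symm, hk⟩) ?_
      · refine absurd (le_trans (measureReal_mono ?_) hIH) (not_le.2 hmu)
        rintro θ ⟨h1, h2⟩
        simp only [hV, Set.mem_ofPred_eq] at h1 h2 ⊢
        have hE : ES (I.erase l)
            (fun x => c x * ce (x * t j) * (ce (x * (t i - t j)) - ce (l * (t i - t j))) / κ) θ =
            (ES I c (θ + t i) - ce (l * (t i - t j)) * ES I c (θ + t j)) / κ := by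
          unfold ES
          rw [mul_sum, ← sum_sub_distrib, sum_div, ← sum_erase_add I _ hl]
          have hzero : (c l * ce (l * (θ + t i)) -
              ce (l * (t i - t j)) * (c l * ce (l * (θ + t j)))) / (κ : ℂ) = 0 := by
            have e : ce (l * (θ + t i)) = ce (l * (t i - t j)) * ce (l * (θ + t j)) := by
              rw [← ce_add]; congr 1; ring
            rw [e]; ring
          rw [hzero, add_zero]
          refine sum_congr rfl fun x _ => ?_
          have e1 : ce (x * (θ + t i)) = ce (x * t j) * ce (x * (t i - t j)) * ce (x * θ) := by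
            rw [← ce_add, ← ce_add]; congr 1; ring
          have e2 : ce (x * (θ + t j)) = ce (x * t j) * ce (x * θ) := by
            rw [← ce_add]; congr 1; ring
          rw [e1, e2]; ring
        rw [hE, norm_div, Complex.norm_real, Real.norm_of_nonneg hκ.le, div_lt_iff₀ hκ]
        calc ‖ES I c (θ + t i) - ce (l * (t i - t j)) * ES I c (θ + t j)‖
            ≤ ‖ES I c (θ + t i)‖ + ‖ce (l * (t i - t j)) * ES I c (θ + t j)‖ := norm_sub_le _ _
          _ = ‖ES I c (θ + t i)‖ + ‖ES I c (θ + t j)‖ := by rw [norm_mul, norm_ce, one_mul]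
          _ < η + η := add_lt_add h1 h2
          _ ≤ κ * η' / 2 + κ * η' / 2 := add_le_add (min_le_right _ _) (min_le_right _ _)
          _ = η' * κ := by ring
      · have e1 : ce (k * (t i - t j)) - ce (l * (t i - t j)) =
            ce (l * (t i - t j)) * (ce (2 * Real.pi * ((i : ℝ) - j) / m) - 1) := by
          have e2 : (k : ℝ) * (t i - t j) = l * (t i - t j) + 2 * Real.pi * ((i : ℝ) - j) / m := by
            simp only [ht]
            field_simp
            ring
          rw [e2, ce_add]; ring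
        rw [norm_div, norm_mul, norm_mul, norm_ce, mul_one, e1, norm_mul, norm_ce, one_mul,
          Complex.norm_real, Real.norm_of_nonneg hκ.le, one_le_div hκ]
        have h3 := Hκ i hi j hj hij
        calc κ ≤ 1 * ‖ce (2 * Real.pi * ((i : ℝ) - j) / m) - 1‖ := by rw [one_mul]; exact h3
          _ ≤ ‖c k‖ * ‖ce (2 * Real.pi * ((i : ℝ) - j) / m) - 1‖ :=
            mul_le_mul_of_nonneg_right hck (norm_nonneg _)

end Pool.Agent.U204.SP
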